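import Pool.Agent.Lib.MP_830418_an.Grp.Cases
import Pool.Agent.Lib.MP_830418_an.Full.Iface

/-!
Problem MP_830418_an.  `S_cases` of the interface.
-/

open Finset

namespace Pool.Agent.PI

open Pool.Agent.PC

theorem pr_lt_eq {G : Type} [Group G] (y : ℕ → G) (m : ℕ) (t : ℕ → Fin 2) :
    pr (lt y) m t = prR y m (fun k => decide (t k ≠ 0)) := by
  induction m with
  | zero => rfl
  | succ m ih =>
    rw [pr, prR, ih]
    congr 1
    unfold lt
    by_cases h : t m = 0
    · simp [h]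
    · simp [h]

theorem prR_mem {G : Type} [Group G] {H : Subgroup G} {y : ℕ → G} (hy : ∀ k, y k ∈ H) (m : ℕ)
    (t : ℕ → Bool) : prR y m t ∈ H := by
  induction m with
  | zero => exact H.one_mem
  | succ m ih =>
    rw [prR]
    refine H.mul_mem ih ?_
    split_ifs
    · exact hy m
    · exact H.one_mem

theorem caseA_of {G : Type} [Group G] (h : PC.CaseA G) : CaseA G := by
  classical
  intro m ε hε
  obtain ⟨H, y, hH, hyH, hy⟩ := h m
  obtain ⟨P, -, hP⟩ := prR_finset y m
  obtain ⟨f, hf, -, hfE⟩ := Reiter.incl hH ((P.filter (· ∈ H)).image fun x => x⁻¹) (by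
    intro x hx
    rw [Finset.mem_image] at hx
    obtain ⟨z, hz, rfl⟩ := hx
    exact H.inv_mem (Finset.mem_filter.1 hz).2) ε hε
  refine ⟨y, f, hf.nonneg, ?_, fun t => ?_, fun t s hts => ?_⟩
  · have := hf.one
    unfold ev at this
    simpa using this
  · rw [pr_lt_eq]
    have h1 := (l1_of_dual (hfE (prR y m (fun k => decide (t k ≠ 0)))⁻¹
      (Finset.mem_image_of_mem _ (Finset.mem_filter.2 ⟨hP _, prR_mem hyH m _⟩)))).2
    simpa only [inv_inv] using h1
  · rw [pr_lt_eq, pr_lt_eq]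
    refine (hy _ _ ?_).1
    obtain ⟨k, hk, hne⟩ := hts
    refine ⟨k, hk, fun heq => hne ?_⟩
    have h1 := congrArg (fun b : Bool => b = true) heq
    simp only [decide_eq_true_eq, eq_iff_iff] at h1
    have h2 : t k = 0 ↔ s k = 0 := not_iff_not.1 h1
    have ht := (t k).2
    have hs := (s k).2
    apply Fin.ext
    by_cases h3 : t k = 0
    · rw [h3, h2.1 h3]
    · have h4 : s k ≠ 0 := fun h => h3 (h2.2 h)
      have h5 : (t k : ℕ) ≠ 0 := fun h => h3 (Fin.ext h)
      have h6 : (s k : ℕ) ≠ 0 := fun h => h4 (Fin.ext h)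
      omega

theorem caseB_of {G : Type} [Group G] (h : PC.CaseB G) : CaseB G := by
  obtain ⟨Y, X, hX, π, hπ, hinf, n, hn⟩ := h
  refine ⟨Y, X, hX, π, hπ, hinf, n, fun x hx => ⟨(hn x hx).1, ?_⟩⟩
  rw [← Nat.card_coe_set_eq]
  exact (hn x hx).2

theorem t_cases : S_cases := by
  intro G _ hG
  rcases cases_of_no_mean hG with h | h
  · exact Or.inl (caseA_of h)
  · exact Or.inr (caseB_of h)

end Pool.Agent.PI
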