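import Pool.Agent.Lib.MP_830418_an.Grp.Reiter
import Pool.Agent.Lib.MP_830418_an.Flat.Defs

/-!
Problem MP_830418_an.  The group theory: a group which is not Reiter either has Reiter subgroups
that are large modulo the maximal normal Reiter subgroup (`CaseA`), or a subgroup of it maps onto an
infinite group with finite centralisers of bounded order (`CaseB`).
-/

open Finset

namespace Pool.Agent.PC

universe u v

/-! ### closure properties needed here -/

section comap

variable {A : Type u} [Group A] {B : Type v} [Group B]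

/-- preimages -/
theorem Reiter.comap (φ : A →* B) (hφ : Function.Surjective φ) (hk : Reiter φ.ker)
    {S : Subgroup B} (hS : Reiter S) : Reiter (S.comap φ) := by
  refine Reiter.ext (φ.subgroupComap S) (φ.subgroupComap_surjective_of_surjective S hφ) ?_ hS
  have hmem : ∀ x : φ.ker, (x : A) ∈ S.comap φ := fun x => by
    rw [Subgroup.mem_comap, (MonoidHom.mem_ker).1 x.2]
    exact S.one_mem
  let ψ : φ.ker →* (φ.subgroupComap S).ker :=
    { toFun := fun x => ⟨⟨x, hmem x⟩, by
        rw [MonoidHom.mem_ker]
        exact Subtype.ext ((MonoidHom.mem_ker).1 x.2)⟩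
      map_one' := rfl
      map_mul' := fun _ _ => rfl }
  refine hk.of_surjective ψ ?_
  rintro ⟨⟨x, hx⟩, hx2⟩
  rw [MonoidHom.mem_ker] at hx2
  exact ⟨⟨x, (MonoidHom.mem_ker).2 (congrArg Subtype.val hx2)⟩, rfl⟩

/-- images of subgroups under injective homomorphisms (any homomorphism) -/
theorem Reiter.map (φ : A →* B) {S : Subgroup A} (hS : Reiter S) : Reiter (S.map φ) :=
  hS.of_surjective (φ.subgroupMap S) (φ.subgroupMap_surjective S)

theorem Reiter.top_iff : Reiter (⊤ : Subgroup A) ↔ Reiter A :=
  ⟨fun h => h.of_mulEquiv Subgroup.topEquiv, fun h => h.of_mulEquiv Subgroup.topEquiv.symm⟩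

theorem Reiter.bot : Reiter (⊥ : Subgroup A) := Reiter.of_finite

end comap

section max

variable {G : Type u} [Group G]

/-- the maximal normal Reiter subgroup -/
theorem exists_max_normal : ∃ R : Subgroup G, R.Normal ∧ Reiter R ∧
    ∀ N : Subgroup G, N.Normal → Reiter N → R ≤ N → N = R := by
  obtain ⟨R, -, hR⟩ := zorn_le_nonempty₀ {N : Subgroup G | N.Normal ∧ Reiter N}
    (fun c hc hch y hy => by
      have hne : c.Nonempty := ⟨y, hy⟩
      have hd : DirectedOn (· ≤ ·) c := hch.directedOn
      refine ⟨sSup c, ⟨?_, Reiter.directed hne hd fun S hS => (hc hS).2⟩, fun z hz => le_sSup hz⟩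
      constructor
      intro n hn g
      rw [Subgroup.mem_sSup_of_directedOn hne hd] at hn ⊢
      obtain ⟨S, hS, hn⟩ := hn
      exact ⟨S, hS, (hc hS).1.conj_mem n hn g⟩) ⊥ ⟨inferInstance, Reiter.bot⟩
  exact ⟨R, hR.prop.1, hR.prop.2, fun N hN1 hN2 hle => le_antisymm (hR.le_of_ge ⟨hN1, hN2⟩ hle) hle⟩

theorem nonFC_of_hom {Q : Type v} [Group Q] (φ : G →* Q) (hφ : Function.Surjective φ) {x : G}
    (hx : NonFC (φ x)) : NonFC x := by
  intro hfin
  apply hx
  refine (hfin.image φ).subset ?_
  rintro _ ⟨g, rfl⟩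
  obtain ⟨g, rfl⟩ := hφ g
  exact ⟨g * x * g⁻¹, ⟨g, rfl⟩, by simp⟩

/-- a group without nontrivial normal Reiter subgroups has infinite conjugacy classes -/
theorem icc_of_no_normal (h : ∀ N : Subgroup G, N.Normal → Reiter N → N = ⊥) {x : G}
    (hx : x ≠ 1) : NonFC x := by
  intro hfin
  -- conjugation action on the class of `x`
  let S : Set G := Set.range fun g : G => g * x * g⁻¹
  have hSfin : Finite S := hfin
  have hSmem : ∀ (g : G) (s : S), g * (s : G) * g⁻¹ ∈ S := by
    rintro g ⟨_, g', rfl⟩
    exact ⟨g * g', by group⟩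
  let ρ : G →* Equiv.Perm S :=
    { toFun := fun g =>
        { toFun := fun s => ⟨g * s * g⁻¹, hSmem g s⟩
          invFun := fun s => ⟨g⁻¹ * s * g, by simpa using hSmem g⁻¹ s⟩
          left_inv := fun s => Subtype.ext (by simp [mul_assoc])
          right_inv := fun s => Subtype.ext (by simp [mul_assoc]) }
      map_one' := by
        ext s
        simp
      map_mul' := fun a b => by
        ext s
        simp [mul_assoc] }
  have hρ : ∀ g ∈ ρ.ker, ∀ s ∈ S, s * g = g * s := by
    intro g hg s hs
    rw [MonoidHom.mem_ker] at hg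
    have h1 : g * s * g⁻¹ = s := congrArg Subtype.val (DFunLike.congr_fun hg ⟨s, hs⟩)
    rw [mul_inv_eq_iff_eq_mul] at h1
    exact h1.symm
  let N : Subgroup G := Subgroup.normalClosure {x}
  have hN : N ≤ Subgroup.centralizer (ρ.ker : Set G) := by
    refine (Subgroup.closure_le _).2 ?_
    intro s hs
    rw [Group.mem_conjugatesOfSet_iff] at hs
    obtain ⟨a, ha, hs⟩ := hs
    rw [Set.mem_singleton_iff] at ha
    subst ha
    obtain ⟨c, hc⟩ := isConj_iff.1 hs
    rw [SetLike.mem_coe, Subgroup.mem_centralizer_iff]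
    intro g hg
    exact (hρ g hg s ⟨c, hc⟩).symm
  have hNn : N.Normal := Subgroup.normalClosure_normal
  have hbot : N ⊓ ρ.ker = ⊥ := by
    refine h _ inferInstance (Reiter.of_comm ?_)
    rintro ⟨a, ha⟩ ⟨b, hb⟩
    have h1 := Subgroup.mem_centralizer_iff.1 (hN ha.1) b hb.2
    exact Subtype.ext h1.symm
  have hinj : Function.Injective (ρ.comp N.subtype) := by
    rw [← MonoidHom.ker_eq_bot_iff, eq_bot_iff]
    intro a ha
    have h1 : (a : G) ∈ N ⊓ ρ.ker := ⟨a.2, ha⟩
    rw [hbot, Subgroup.mem_bot] at h1
    rw [Subgroup.mem_bot]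
    exact Subtype.ext h1
  have hNfin : Finite N := Finite.of_injective _ hinj
  have hNbot : N = ⊥ := h N hNn Reiter.of_finite
  have hxN : x ∈ N := Subgroup.subset_normalClosure rfl
  rw [hNbot, Subgroup.mem_bot] at hxN
  exact hx hxN

end max

/-! ### letters with different products -/

section letters

variable {G : Type u} [Group G]

/-- `y_0^{t_0} y_1^{t_1} ... y_{m-1}^{t_{m-1}}` -/
def prR (y : ℕ → G) : ℕ → (ℕ → Bool) → G
  | 0, _ => 1
  | m + 1, t => prR y m t * (if t m then y m else 1)

/-- `y_{m-1}^{t_{m-1}} ... y_1^{t_1} y_0^{t_0}` -/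
def prL (y : ℕ → G) : ℕ → (ℕ → Bool) → G
  | 0, _ => 1
  | m + 1, t => (if t m then y m else 1) * prL y m t

theorem prR_congr {y z : ℕ → G} {m : ℕ} (h : ∀ k < m, y k = z k) (t : ℕ → Bool) :
    prR y m t = prR z m t := by
  induction m with
  | zero => rfl
  | succ m ih =>
    rw [prR, prR, ih fun k hk => h k (by omega), h m (by omega)]

theorem prL_congr {y z : ℕ → G} {m : ℕ} (h : ∀ k < m, y k = z k) (t : ℕ → Bool) :
    prL y m t = prL z m t := by
  induction m with
  | zero => rfl
  | succ m ih =>
    rw [prL, prL, ih fun k hk => h k (by omega), h m (by omega)]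

theorem map_prR {Q : Type v} [Group Q] (φ : G →* Q) (y : ℕ → G) (m : ℕ) (t : ℕ → Bool) :
    φ (prR y m t) = prR (fun k => φ (y k)) m t := by
  induction m with
  | zero => exact map_one φ
  | succ m ih =>
    rw [prR, prR, map_mul, ih]
    split_ifs <;> simp

theorem map_prL {Q : Type v} [Group Q] (φ : G →* Q) (y : ℕ → G) (m : ℕ) (t : ℕ → Bool) :
    φ (prL y m t) = prL (fun k => φ (y k)) m t := by
  induction m with
  | zero => exact map_one φ
  | succ m ih =>
    rw [prL, prL, map_mul, ih]
    split_ifs <;> simp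

theorem prR_finset (y : ℕ → G) (m : ℕ) :
    ∃ P : Finset G, P.card ≤ 2 ^ m ∧ ∀ t, prR y m t ∈ P := by
  classical
  induction m with
  | zero => exact ⟨{1}, by simp, fun t => by simp [prR]⟩
  | succ m ih =>
    obtain ⟨P, hP, hPm⟩ := ih
    refine ⟨P ∪ P.image (· * y m), ?_, fun t => ?_⟩
    · refine (Finset.card_union_le _ _).trans ?_
      have := Finset.card_image_le (s := P) (f := (· * y m))
      rw [pow_succ]
      omega
    · rw [prR, Finset.mem_union, Finset.mem_image]
      split_ifs
      · exact Or.inr ⟨_, hPm t, rfl⟩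
      · exact Or.inl (by simpa using hPm t)

theorem prL_finset (y : ℕ → G) (m : ℕ) :
    ∃ P : Finset G, P.card ≤ 2 ^ m ∧ ∀ t, prL y m t ∈ P := by
  classical
  induction m with
  | zero => exact ⟨{1}, by simp, fun t => by simp [prL]⟩
  | succ m ih =>
    obtain ⟨P, hP, hPm⟩ := ih
    refine ⟨P ∪ P.image (y m * ·), ?_, fun t => ?_⟩
    · refine (Finset.card_union_le _ _).trans ?_
      have := Finset.card_image_le (s := P) (f := (y m * ·))
      rw [pow_succ]
      omega
    · rw [prL, Finset.mem_union, Finset.mem_image]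
      split_ifs
      · exact Or.inr ⟨_, hPm t, rfl⟩
      · exact Or.inl (by simpa using hPm t)

/-- the greedy choice -/
theorem exists_letters_greedy (H : Subgroup G) (m : ℕ)
    (hH : Infinite H ∨ 2 * 4 ^ m < Nat.card H) :
    ∃ y : ℕ → G, (∀ k, y k ∈ H) ∧ ∀ t s : ℕ → Bool, (∃ k < m, t k ≠ s k) →
      prR y m t ≠ prR y m s ∧ prL y m t ≠ prL y m s := by
  classical
  -- first the avoidance property
  have hgreedy : ∀ k ≤ m, ∃ y : ℕ → G, (∀ k, y k ∈ H) ∧ ∀ j < k, ∀ t s : ℕ → Bool,
      y j ≠ (prR y j t)⁻¹ * prR y j s ∧ y j ≠ prL y j t * (prL y j s)⁻¹ := by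
    intro k
    induction k with
    | zero => exact fun _ => ⟨fun _ => 1, fun _ => H.one_mem, fun j hj => absurd hj (by omega)⟩
    | succ k ih =>
      intro hk
      obtain ⟨y, hyH, hy⟩ := ih (by omega)
      obtain ⟨P, hPc, hP⟩ := prR_finset y k
      obtain ⟨P', hPc', hP'⟩ := prL_finset y k
      set Z : Finset G := ((P ×ˢ P).image fun ab => ab.1⁻¹ * ab.2) ∪
        ((P' ×ˢ P').image fun ab => ab.1 * ab.2⁻¹) with hZ
      have hZc : Z.card ≤ 2 * 4 ^ k := by
        rw [hZ]
        refine (Finset.card_union_le _ _).trans ?_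
        have h1 := Finset.card_image_le (s := P ×ˢ P) (f := fun ab : G × G => ab.1⁻¹ * ab.2)
        have h2 := Finset.card_image_le (s := P' ×ˢ P') (f := fun ab : G × G => ab.1 * ab.2⁻¹)
        rw [Finset.card_product] at h1 h2
        have h3 : P.card * P.card ≤ 2 ^ k * 2 ^ k := Nat.mul_le_mul hPc hPc
        have h4 : P'.card * P'.card ≤ 2 ^ k * 2 ^ k := Nat.mul_le_mul hPc' hPc'
        have h5 : (4 : ℕ) ^ k = 2 ^ k * 2 ^ k := by
          rw [← mul_pow]
          norm_num
        omega
      have hex : ∃ z ∈ H, z ∉ Z := by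
        by_contra hcon
        push Not at hcon
        have hsub : (H : Set G) ⊆ (Z : Set G) := fun z hz => hcon z hz
        have hfin : (H : Set G).Finite := Z.finite_toSet.subset hsub
        rcases hH with hH | hH
        · exact hH.not_finite hfin
        · have h1 : Nat.card H ≤ Z.card := by
            have := Nat.card_mono Z.finite_toSet hsub
            simpa using this
          have h2 : 4 ^ k ≤ 4 ^ m := Nat.pow_le_pow_right (by norm_num) (by omega)
          omega
      obtain ⟨z, hzH, hzZ⟩ := hex
      refine ⟨Function.update y k z, fun j => ?_, fun j hj t s => ?_⟩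
      · by_cases hjk : j = k
        · subst hjk
          simpa using hzH
        · simpa [hjk] using hyH j
      · have hco : ∀ l < j, Function.update y k z l = y l := fun l hl => by
          rw [Function.update_of_ne (by omega)]
        rw [prR_congr hco, prR_congr hco, prL_congr hco, prL_congr hco]
        by_cases hjk : j = k
        · subst hjk
          rw [Function.update_self]
          constructor
          · rintro rfl
            exact hzZ (Finset.mem_union_left _ (Finset.mem_image.2
              ⟨(_, _), Finset.mk_mem_product (hP t) (hP s), rfl⟩))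
          · rintro rfl
            exact hzZ (Finset.mem_union_right _ (Finset.mem_image.2
              ⟨(_, _), Finset.mk_mem_product (hP' t) (hP' s), rfl⟩))
        · rw [Function.update_of_ne hjk]
          exact hy j (by omega) t s
  obtain ⟨y, hyH, hy⟩ := hgreedy m le_rfl
  refine ⟨y, hyH, ?_⟩
  clear hH hgreedy
  induction m with
  | zero => rintro t s ⟨k, hk, -⟩; exact absurd hk (by omega)
  | succ m ih =>
    rintro t s ⟨k, hk, hts⟩
    have hym := hy m (by omega)
    by_cases hm : t m = s m
    · have hkm : k < m := by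
        rcases Nat.lt_succ_iff_lt_or_eq.1 hk with h | h
        · exact h
        · subst h
          exact absurd hm hts
      obtain ⟨h1, h2⟩ := ih (fun j hj => hy j (by omega)) t s ⟨k, hkm, hts⟩
      constructor
      · rw [prR, prR, hm]
        exact fun h => h1 (mul_right_cancel h)
      · rw [prL, prL, hm]
        exact fun h => h2 (mul_left_cancel h)
    · cases h1 : t m <;> cases h2 : s m
      · rw [h1, h2] at hm; exact absurd rfl hm
      · constructor
        · rw [prR, prR, h1, h2]
          simp only [Bool.false_eq_true, if_false, if_true, mul_one]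
          intro h
          exact (hym s t).1 (by rw [h]; group)
        · rw [prL, prL, h1, h2]
          simp only [Bool.false_eq_true, if_false, if_true, one_mul]
          intro h
          exact (hym t s).2 (by rw [h]; group)
      · constructor
        · rw [prR, prR, h1, h2]
          simp only [Bool.false_eq_true, if_false, if_true, mul_one]
          intro h
          exact (hym t s).1 (by rw [← h]; group)
        · rw [prL, prL, h1, h2]
          simp only [Bool.false_eq_true, if_false, if_true, one_mul]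
          intro h
          exact (hym s t).2 (by rw [← h]; group)
      · rw [h1, h2] at hm; exact absurd rfl hm

end letters

/-! ### the two cases -/

/-- for every `m` there are a Reiter subgroup `H` and letters in it whose `2^m` products (in both
orders) have quotients with infinitely many conjugates -/
def CaseA (G : Type u) [Group G] : Prop :=
  ∀ m : ℕ, ∃ (H : Subgroup G) (y : ℕ → G), Reiter H ∧ (∀ k, y k ∈ H) ∧
    ∀ t s : ℕ → Bool, (∃ k < m, t k ≠ s k) →
      NonFC (prR y m t * (prR y m s)⁻¹) ∧ NonFC ((prR y m t)⁻¹ * prR y m s) ∧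
      NonFC (prL y m t * (prL y m s)⁻¹) ∧ NonFC ((prL y m t)⁻¹ * prL y m s)

/-- a subgroup maps onto an infinite group with nontrivial centralisers of bounded finite order -/
def CaseB (G : Type u) [Group G] : Prop :=
  ∃ (Y : Subgroup G) (X : Type u) (_ : Group X) (π : Y →* X), Function.Surjective π ∧ Infinite X ∧
    ∃ n : ℕ, ∀ x : X, x ≠ 1 →
      {z : X | Commute x z}.Finite ∧ Nat.card {z : X | Commute x z} ≤ n

/-- Case B in a group all of whose Reiter subgroups have at most `n` elements -/
theorem caseB_core {Q : Type u} [Group Q] (hQ : ¬ Reiter Q) {n : ℕ}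
    (hn : ∀ H : Subgroup Q, Reiter H → Finite H ∧ Nat.card H ≤ n) :
    ∃ (Y : Subgroup Q) (X : Type u) (_ : Group X) (π : Y →* X), Function.Surjective π ∧
      Infinite X ∧ ∀ x : X, x ≠ 1 →
        {z : X | Commute x z}.Finite ∧ Nat.card {z : X | Commute x z} ≤ n := by
  classical
  let P : ℕ → Prop := fun k => ∃ Y F : Subgroup Q, F ≤ Y ∧
    (∀ y ∈ Y, ∀ f ∈ F, y * f * y⁻¹ ∈ F) ∧ Finite F ∧ ¬ Reiter Y ∧ Nat.card F = k
  have hP1 : P 1 := by
    refine ⟨⊤, ⊥, bot_le, ?_, inferInstance, fun h => hQ (Reiter.top_iff.1 h), by simp⟩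
    intro y _ f hf
    rw [Subgroup.mem_bot] at hf ⊢
    rw [hf]
    group
  have hPn : ∀ k, P k → k ≤ n := by
    rintro k ⟨Y, F, -, -, hF, -, rfl⟩
    exact (hn F Reiter.of_finite).2
  have hmax : ∃ k, P k ∧ ∀ l, P l → l ≤ k := by
    refine ⟨Nat.findGreatest P n, Nat.findGreatest_spec (hPn 1 hP1) hP1, fun l hl => ?_⟩
    exact Nat.le_findGreatest (hPn l hl) hl
  obtain ⟨k, ⟨Y, F, hFY, hnorm, hF, hY, rfl⟩, hk⟩ := hmax
  let F0 : Subgroup Y := F.subgroupOf Y
  have hF0 : F0.Normal := ⟨fun f hf y => by
    rw [Subgroup.mem_subgroupOf] at hf ⊢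
    exact hnorm y y.2 f hf⟩
  have hF0fin : Finite F0 :=
    Finite.of_injective (fun x : F0 => (⟨((x : Y) : Q), x.2⟩ : F)) fun a b h => by
      have := congrArg Subtype.val h
      exact Subtype.ext (Subtype.ext this)
  let q : Y →* Y ⧸ F0 := QuotientGroup.mk' F0
  have hq : Function.Surjective q := QuotientGroup.mk'_surjective F0
  have hker : Reiter q.ker := by
    have : q.ker = F0 := QuotientGroup.ker_mk' F0
    rw [this]
    exact Reiter.of_finite
  refine ⟨Y, Y ⧸ F0, inferInstance, q, hq, ?_, fun x hx => ?_⟩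
  · by_contra hfin
    rw [not_infinite_iff_finite] at hfin
    exact hY (Reiter.ext q hq hker Reiter.of_finite)
  · -- the centraliser
    let C : Subgroup (Y ⧸ F0) := Subgroup.centralizer {x}
    let CY : Subgroup Y := C.comap q
    let C' : Subgroup Q := CY.map Y.subtype
    have hset : {z : Y ⧸ F0 | Commute x z} = (C : Set (Y ⧸ F0)) := by
      ext z
      rw [Set.mem_ofPred_eq, SetLike.mem_coe, Subgroup.mem_centralizer_iff]
      constructor
      · rintro h w rfl
        exact h
      · intro h
        exact h x rfl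
    have hC' : Reiter C' := by
      by_contra hcon
      let ZY : Subgroup Y := (Subgroup.zpowers x).comap q
      let Z : Subgroup Q := ZY.map Y.subtype
      have hZR : Reiter Z := by
        refine Reiter.map _ (Reiter.comap q hq hker (Reiter.of_comm ?_))
        rintro ⟨a, ha⟩ ⟨b, hb⟩
        obtain ⟨i, rfl⟩ := ha
        obtain ⟨j, rfl⟩ := hb
        exact Subtype.ext (zpow_mul_comm x i j)
      obtain ⟨hZfin, -⟩ := hn Z hZR
      have hlt : Nat.card F < Nat.card Z := by
        have hFZ : F ≤ Z := by
          intro f hf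
          refine ⟨⟨f, hFY hf⟩, ?_, rfl⟩
          show q ⟨f, hFY hf⟩ ∈ Subgroup.zpowers x
          have : q ⟨f, hFY hf⟩ = 1 := by
            rw [← MonoidHom.mem_ker, QuotientGroup.ker_mk', Subgroup.mem_subgroupOf]
            exact hf
          rw [this]
          exact Subgroup.one_mem _
        have hne : F ≠ Z := by
          intro heq
          obtain ⟨y, hy⟩ := hq x
          have hyZ : (y : Q) ∈ Z := ⟨y, by
            show q y ∈ Subgroup.zpowers x
            rw [hy]
            exact Subgroup.mem_zpowers x, rfl⟩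
          rw [← heq] at hyZ
          apply hx
          rw [← hy, ← MonoidHom.mem_ker, QuotientGroup.ker_mk', Subgroup.mem_subgroupOf]
          exact hyZ
        have hss : (F : Set Q) ⊂ (Z : Set Q) := by
          refine (Set.ssubset_iff_subset_ne).2 ⟨hFZ, fun h => hne (SetLike.coe_injective h)⟩
        have hZf : (Z : Set Q).Finite := hZfin
        have := Set.ncard_lt_ncard hss hZf
        rwa [← Nat.card_coe_set_eq, ← Nat.card_coe_set_eq] at this
      have hZP : P (Nat.card Z) := by
        refine ⟨C', Z, ?_, ?_, hZfin, hcon, rfl⟩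
        · refine Subgroup.map_mono (Subgroup.comap_mono ?_)
          rw [Subgroup.zpowers_le]
          rw [Subgroup.mem_centralizer_iff]
          rintro w rfl
          rfl
        · rintro _ ⟨y, hy, rfl⟩ _ ⟨z, hz, rfl⟩
          refine ⟨y * z * y⁻¹, ?_, by simp⟩
          show q (y * z * y⁻¹) ∈ Subgroup.zpowers x
          have hz' : q z ∈ Subgroup.zpowers x := hz
          have hy' : q y ∈ Subgroup.centralizer {x} := hy
          obtain ⟨i, hi⟩ := hz'
          have hi' : x ^ i = q z := hi
          have hcomm : Commute x (q y) := Subgroup.mem_centralizer_iff.1 hy' x rfl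
          have h1 : q y * q z * (q y)⁻¹ = q z := by
            rw [← hi']
            have := (hcomm.symm.zpow_right i).eq
            rw [this]
            group
          rw [map_mul, map_mul, map_inv, h1]
          exact ⟨i, hi⟩
      have := hk _ hZP
      omega
    obtain ⟨hfin, hcard⟩ := hn C' hC'
    -- `C' → C` is surjective
    have hmemC : ∀ z : C', ∃ c : C, ∀ y : Y, (y : Q) = z → q y = c := by
      rintro ⟨_, y, hy, rfl⟩
      refine ⟨⟨q y, hy⟩, fun y' hy' => ?_⟩
      have : y' = y := Subtype.ext hy'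
      rw [this]
    choose F1 hF1 using hmemC
    have hsurj : Function.Surjective F1 := by
      rintro ⟨c, hc⟩
      obtain ⟨y, rfl⟩ := hq c
      refine ⟨⟨y, y, hc, rfl⟩, ?_⟩
      exact Subtype.ext (hF1 ⟨y, y, hc, rfl⟩ y rfl).symm
    have hCfin : Finite C := Finite.of_surjective F1 hsurj
    have hCcard : Nat.card C ≤ Nat.card C' := Nat.card_le_card_of_surjective F1 hsurj
    rw [hset]
    exact ⟨hCfin, hCcard.trans hcard⟩

/-- the case split -/
theorem cases_of_not_reiter {G : Type u} [Group G] (hG : ¬ Reiter G) : CaseA G ∨ CaseB G := by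
  obtain ⟨R, hRn, hR, hmax⟩ := exists_max_normal (G := G)
  let p : G →* G ⧸ R := QuotientGroup.mk' R
  have hp : Function.Surjective p := QuotientGroup.mk'_surjective R
  have hker : p.ker = R := QuotientGroup.ker_mk' R
  have hkerR : Reiter p.ker := by
    rw [hker]
    exact hR
  have hno : ∀ N : Subgroup (G ⧸ R), N.Normal → Reiter N → N = ⊥ := by
    intro N hN hNR
    have h1 : N.comap p = R := by
      refine hmax _ (hN.comap p) (Reiter.comap p hp hkerR hNR) ?_
      intro r hr
      rw [Subgroup.mem_comap]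
      rw [← hker, MonoidHom.mem_ker] at hr
      rw [hr]
      exact N.one_mem
    rw [eq_bot_iff]
    intro x hx
    obtain ⟨g, rfl⟩ := hp x
    have : g ∈ N.comap p := hx
    rw [h1, ← hker, MonoidHom.mem_ker] at this
    rw [Subgroup.mem_bot]
    exact this
  have hQ : ¬ Reiter (G ⧸ R) := fun h => hG (Reiter.ext p hp hkerR h)
  by_cases hcase : ∀ n : ℕ, ∃ H : Subgroup (G ⧸ R), Reiter H ∧ (Infinite H ∨ n < Nat.card H)
  · left
    intro m
    obtain ⟨H, hH, hHc⟩ := hcase (2 * 4 ^ m)
    obtain ⟨y, hyH, hy⟩ := exists_letters_greedy H m hHc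
    choose z hz using fun k => hp (y k)
    refine ⟨H.comap p, z, Reiter.comap p hp hkerR hH, fun k => ?_, fun t s hts => ?_⟩
    · rw [Subgroup.mem_comap, hz]
      exact hyH k
    · have hpz : (fun k => p (z k)) = y := funext hz
      obtain ⟨h1, h2⟩ := hy t s hts
      refine ⟨?_, ?_, ?_, ?_⟩
      · refine nonFC_of_hom p hp (icc_of_no_normal hno ?_)
        rw [map_mul, map_inv, map_prR, map_prR, hpz]
        exact fun h => h1 (mul_inv_eq_one.1 h)
      · refine nonFC_of_hom p hp (icc_of_no_normal hno ?_)
        rw [map_mul, map_inv, map_prR, map_prR, hpz]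
        exact fun h => h1 (inv_mul_eq_one.1 h)
      · refine nonFC_of_hom p hp (icc_of_no_normal hno ?_)
        rw [map_mul, map_inv, map_prL, map_prL, hpz]
        exact fun h => h2 (mul_inv_eq_one.1 h)
      · refine nonFC_of_hom p hp (icc_of_no_normal hno ?_)
        rw [map_mul, map_inv, map_prL, map_prL, hpz]
        exact fun h => h2 (inv_mul_eq_one.1 h)
  · right
    push Not at hcase
    obtain ⟨n, hn⟩ := hcase
    obtain ⟨Y, X, hX, π, hπ, hinf, hc⟩ := caseB_core hQ (n := n) fun H hH => by
      obtain ⟨h1, h2⟩ := hn H hH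
      exact ⟨by simpa using h1, h2⟩
    refine ⟨Y.comap p, X, hX, π.comp (p.subgroupComap Y),
      hπ.comp (p.subgroupComap_surjective_of_surjective Y hp), hinf, n, hc⟩

/-- Section 4: a group without invariant mean is in Case A or in Case B. -/
theorem cases_of_no_mean {G : Type u} [Group G]
    (hG : ¬ ∃ m : Set G → ℝ, (∀ A, 0 ≤ m A) ∧ m Set.univ = 1 ∧
      (∀ A B : Set G, Disjoint A B → m (A ∪ B) = m A + m B) ∧
      ∀ (g : G) (A : Set G), m ((fun x => g * x) '' A) = m A) :
    CaseA G ∨ CaseB G :=
  cases_of_not_reiter fun h => hG h.mean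

/-- infinitely many conjugates from finite centralisers -/
theorem nonFC_of_centralizer {X : Type u} [Group X] [Infinite X] {x : X}
    (hx : {z : X | Commute x z}.Finite) : NonFC x := by
  intro hfin
  have h1 : (Set.univ : Set X).Finite := by
    refine Set.Finite.of_finite_fibers (f := fun g : X => g * x * g⁻¹) (hfin.subset (by
      rintro _ ⟨g, -, rfl⟩
      exact ⟨g, rfl⟩)) ?_
    rintro _ ⟨g, -, rfl⟩
    refine (hx.image (fun z => g * z)).subset ?_
    rintro h ⟨-, hh⟩
    have hh' : h * x * h⁻¹ = g * x * g⁻¹ := hh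
    refine ⟨g⁻¹ * h, ?_, by simp⟩
    show x * (g⁻¹ * h) = g⁻¹ * h * x
    have h2 : h * x = g * x * g⁻¹ * h := by
      rw [← hh']
      group
    calc x * (g⁻¹ * h) = g⁻¹ * (g * x * g⁻¹ * h) := by group
      _ = g⁻¹ * (h * x) := by rw [h2]
      _ = g⁻¹ * h * x := by group
  exact Set.infinite_univ h1

end Pool.Agent.PC
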