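import Mathlib

/-!
Problem MP_830418_an.  Groups with almost invariant finitely supported probabilities (Reiter's
condition, in the dual form), their closure properties, and the invariant mean.
-/

open Finset Filter

namespace Pool.Agent.PC

universe u v w

/-- expectation of `u` for the finitely supported function `f` -/
noncomputable def ev {H : Type u} (f : H →₀ ℝ) (u : H → ℝ) : ℝ := f.sum fun x a => a * u x

/-- finitely supported probability -/
structure Prob {H : Type u} (f : H →₀ ℝ) : Prop where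
  nonneg : ∀ x, 0 ≤ f x
  one : ev f (fun _ => 1) = 1

/-- Reiter's condition: for every finite set `E` and `ε > 0` there is a finitely supported
probability `f` with `‖h f - f‖_1 ≤ ε` for `h ∈ E`; the `ℓ^1` norm is written by duality. -/
def Reiter (H : Type u) [Group H] : Prop :=
  ∀ (E : Finset H) (ε : ℝ), 0 < ε → ∃ f : H →₀ ℝ, Prob f ∧
    ∀ h ∈ E, ∀ u : H → ℝ, (∀ x, |u x| ≤ 1) → |ev f (fun x => u (h * x)) - ev f u| ≤ ε

section ev

variable {H : Type u} {K : Type v} {M : Type w}

theorem ev_eq_sum (f : H →₀ ℝ) (u : H → ℝ) : ev f u = ∑ x ∈ f.support, f x * u x := rfl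

theorem ev_single (x : H) (a : ℝ) (u : H → ℝ) : ev (Finsupp.single x a) u = a * u x := by
  unfold ev
  rw [Finsupp.sum_single_index]
  simp

theorem ev_mapDomain (φ : H → K) (f : H →₀ ℝ) (u : K → ℝ) :
    ev (Finsupp.mapDomain φ f) u = ev f (fun x => u (φ x)) := by
  unfold ev
  rw [Finsupp.sum_mapDomain_index]
  · simp
  · intro x a b
    ring

theorem ev_sub (f : H →₀ ℝ) (u v : H → ℝ) : ev f (fun x => u x - v x) = ev f u - ev f v := by
  simp only [ev_eq_sum, mul_sub, Finset.sum_sub_distrib]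

theorem ev_add (f : H →₀ ℝ) (u v : H → ℝ) : ev f (fun x => u x + v x) = ev f u + ev f v := by
  simp only [ev_eq_sum, mul_add, Finset.sum_add_distrib]

theorem ev_add_left (f g : H →₀ ℝ) (u : H → ℝ) : ev (f + g) u = ev f u + ev g u := by
  unfold ev
  rw [Finsupp.sum_add_index']
  · simp
  · intro x a b
    ring

theorem ev_smul_left (c : ℝ) (f : H →₀ ℝ) (u : H → ℝ) : ev (c • f) u = c * ev f u := by
  unfold ev
  rw [Finsupp.sum_smul_index', Finsupp.mul_sum]
  · refine Finset.sum_congr rfl fun x _ => ?_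
    simp only [smul_eq_mul]
    ring
  · simp

theorem ev_zero_left (u : H → ℝ) : ev (0 : H →₀ ℝ) u = 0 := by
  unfold ev
  simp

theorem ev_sum_left {ι : Type*} (s : Finset ι) (F : ι → H →₀ ℝ) (u : H → ℝ) :
    ev (∑ i ∈ s, F i) u = ∑ i ∈ s, ev (F i) u := by
  classical
  induction s using Finset.induction_on with
  | empty => simp [ev_zero_left]
  | insert i s hi ih => rw [Finset.sum_insert hi, Finset.sum_insert hi, ev_add_left, ih]

theorem ev_mono {f : H →₀ ℝ} (hf : Prob f) {u v : H → ℝ} (h : ∀ x, u x ≤ v x) :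
    ev f u ≤ ev f v :=
  Finset.sum_le_sum fun x _ => mul_le_mul_of_nonneg_left (h x) (hf.nonneg x)

theorem ev_const {f : H →₀ ℝ} (hf : Prob f) (c : ℝ) : ev f (fun _ => c) = c := by
  have h := hf.one
  rw [ev_eq_sum] at h ⊢
  rw [← Finset.sum_mul]
  simp only [mul_one] at h
  rw [h, one_mul]

theorem abs_ev_le {f : H →₀ ℝ} (hf : Prob f) {u : H → ℝ} {c : ℝ} (h : ∀ x, |u x| ≤ c) :
    |ev f u| ≤ c := by
  rw [abs_le]
  constructor
  · rw [← ev_const hf (-c)]
    exact ev_mono hf fun x => (abs_le.1 (h x)).1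
  · rw [← ev_const hf c]
    exact ev_mono hf fun x => (abs_le.1 (h x)).2

theorem Prob.of_ev {f : H →₀ ℝ} (h0 : ∀ u : H → ℝ, (∀ x, 0 ≤ u x) → 0 ≤ ev f u)
    (h1 : ev f (fun _ => 1) = 1) : Prob f := by
  classical
  refine ⟨fun x => ?_, h1⟩
  have := h0 (fun y => if y = x then 1 else 0) (fun y => by split_ifs <;> norm_num)
  rw [ev_eq_sum] at this
  simp only [mul_ite, mul_one, mul_zero, Finset.sum_ite_eq'] at this
  by_cases hx : x ∈ f.support
  · rwa [if_pos hx] at this
  · rw [Finsupp.notMem_support_iff.1 hx]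

theorem Prob.ev_nonneg {f : H →₀ ℝ} (hf : Prob f) {u : H → ℝ} (h : ∀ x, 0 ≤ u x) : 0 ≤ ev f u :=
  Finset.sum_nonneg fun x _ => mul_nonneg (hf.nonneg x) (h x)

theorem Prob.mapDomain {f : H →₀ ℝ} (hf : Prob f) (φ : H → K) : Prob (Finsupp.mapDomain φ f) := by
  refine Prob.of_ev (fun u hu => ?_) ?_
  · rw [ev_mapDomain]
    exact hf.ev_nonneg fun x => hu _
  · rw [ev_mapDomain]
    exact hf.one

theorem prob_single (x : H) : Prob (Finsupp.single x (1 : ℝ)) := by
  refine Prob.of_ev (fun u hu => ?_) ?_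
  · rw [ev_single, one_mul]
    exact hu x
  · rw [ev_single, one_mul]

/-- first `q` with distribution `f`, then `n` with distribution `k`, result `ψ q n` -/
noncomputable def bnd (f : H →₀ ℝ) (k : K →₀ ℝ) (ψ : H → K → M) : M →₀ ℝ :=
  f.sum fun q a => a • Finsupp.mapDomain (ψ q) k

theorem ev_bnd (f : H →₀ ℝ) (k : K →₀ ℝ) (ψ : H → K → M) (u : M → ℝ) :
    ev (bnd f k ψ) u = ev f (fun q => ev k (fun n => u (ψ q n))) := by
  unfold bnd Finsupp.sum
  rw [ev_sum_left, ev_eq_sum]
  refine Finset.sum_congr rfl fun q _ => ?_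
  rw [ev_smul_left, ev_mapDomain]

theorem prob_bnd {f : H →₀ ℝ} (hf : Prob f) {k : K →₀ ℝ} (hk : Prob k) (ψ : H → K → M) :
    Prob (bnd f k ψ) := by
  refine Prob.of_ev (fun u hu => ?_) ?_
  · rw [ev_bnd]
    exact hf.ev_nonneg fun q => hk.ev_nonneg fun n => hu _
  · rw [ev_bnd]
    simp only [hk.one, hf.one]

/-- uniform distribution of a finite family -/
noncomputable def unif {ι : Type v} (s : Finset ι) (F : ι → H) : H →₀ ℝ :=
  (s.card : ℝ)⁻¹ • ∑ i ∈ s, Finsupp.single (F i) (1 : ℝ)

theorem ev_unif {ι : Type v} (s : Finset ι) (F : ι → H) (u : H → ℝ) :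
    ev (unif s F) u = (s.card : ℝ)⁻¹ * ∑ i ∈ s, u (F i) := by
  unfold unif
  rw [ev_smul_left, ev_sum_left]
  simp only [ev_single, one_mul]

theorem prob_unif {ι : Type v} {s : Finset ι} (hs : s.Nonempty) (F : ι → H) :
    Prob (unif s F) := by
  have h0 : (s.card : ℝ) ≠ 0 := by
    exact_mod_cast hs.card_pos.ne'
  refine Prob.of_ev (fun u hu => ?_) ?_
  · rw [ev_unif]
    exact mul_nonneg (by positivity) (Finset.sum_nonneg fun i _ => hu _)
  · rw [ev_unif]
    simp [h0]

end ev

section closure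

variable {H : Type u} [Group H] {K : Type v} [Group K]

/-- images -/
theorem Reiter.of_surjective (hH : Reiter H) (φ : H →* K) (hφ : Function.Surjective φ) :
    Reiter K := by
  classical
  intro E ε hε
  obtain ⟨s, hs⟩ := hφ.hasRightInverse
  obtain ⟨f, hf, hfE⟩ := hH (E.image s) ε hε
  refine ⟨Finsupp.mapDomain φ f, hf.mapDomain φ, fun h hh u hu => ?_⟩
  rw [ev_mapDomain, ev_mapDomain]
  have := hfE (s h) (Finset.mem_image_of_mem s hh) (fun x => u (φ x)) fun x => hu _
  simpa only [map_mul, hs h] using this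

theorem Reiter.of_mulEquiv (hH : Reiter H) (φ : H ≃* K) : Reiter K :=
  hH.of_surjective φ.toMonoidHom φ.surjective

/-- finite groups -/
theorem Reiter.of_finite [Finite H] : Reiter H := by
  classical
  have := Fintype.ofFinite H
  intro E ε hε
  refine ⟨unif Finset.univ id, prob_unif ⟨1, Finset.mem_univ _⟩ _, fun h _ u _ => ?_⟩
  rw [ev_unif, ev_unif]
  have : ∑ i : H, u (h * id i) = ∑ i : H, u (id i) :=
    Equiv.sum_comp (Equiv.mulLeft h) (fun x => u x)
  rw [this, sub_self, abs_zero]
  exact hε.le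

/-- extensions -/
theorem Reiter.ext (φ : H →* K) (hφ : Function.Surjective φ) (hk : Reiter φ.ker)
    (hK : Reiter K) : Reiter H := by
  classical
  intro E ε hε
  obtain ⟨s, hs⟩ := hφ.hasRightInverse
  obtain ⟨g, hg, hgE⟩ := hK (E.image φ) (ε / 2) (by positivity)
  have hmem : ∀ (e : H) (q : K), (s (φ e * q))⁻¹ * (e * s q) ∈ φ.ker := by
    intro e q
    rw [MonoidHom.mem_ker, map_mul, map_inv, hs, map_mul, hs]
    simp
  obtain ⟨k, hk1, hkE⟩ := hk
    ((E ×ˢ g.support).image fun eq => (⟨_, hmem eq.1 eq.2⟩ : φ.ker)) (ε / 2) (by positivity)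
  refine ⟨bnd g k fun q n => s q * n, prob_bnd hg hk1 _, fun e he u hu => ?_⟩
  rw [ev_bnd, ev_bnd]
  -- compare with the translate in `K`
  have h1 : |ev g (fun q => ev k (fun n => u (e * (s q * n)))) -
      ev g (fun q => ev k (fun n : φ.ker => u (s (φ e * q) * n)))| ≤ ε / 2 := by
    rw [← ev_sub, ev_eq_sum]
    have hbd : ∀ q ∈ g.support, |g q * (ev k (fun n : φ.ker => u (e * (s q * n))) -
        ev k (fun n : φ.ker => u (s (φ e * q) * n)))| ≤ g q * (ε / 2) := by
      intro q hq
      rw [abs_mul, abs_of_nonneg (hg.nonneg q)]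
      refine mul_le_mul_of_nonneg_left ?_ (hg.nonneg q)
      have := hkE ⟨_, hmem e q⟩ (Finset.mem_image.2 ⟨(e, q), Finset.mk_mem_product he hq, rfl⟩)
        (fun n => u (s (φ e * q) * n)) fun n => hu _
      have h2 : ∀ n : φ.ker, s (φ e * q) * (((⟨_, hmem e q⟩ : φ.ker) * n : φ.ker) : H) =
          e * (s q * n) := by
        intro n
        simp only [Subgroup.coe_mul]
        group
      simpa only [h2] using this
    refine (Finset.abs_sum_le_sum_abs _ _).trans ((Finset.sum_le_sum hbd).trans ?_)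
    rw [← ev_eq_sum g (fun _ => ε / 2), ev_const hg]
  have h2 : |ev g (fun q => ev k (fun n : φ.ker => u (s (φ e * q) * n))) -
      ev g (fun q => ev k (fun n : φ.ker => u (s q * n)))| ≤ ε / 2 :=
    hgE (φ e) (Finset.mem_image_of_mem φ he) (fun q => ev k (fun n : φ.ker => u (s q * n)))
      fun q => abs_ev_le hk1 fun n => hu _
  have := abs_add_le
    (ev g (fun q => ev k (fun n => u (e * (s q * n)))) -
      ev g (fun q => ev k (fun n : φ.ker => u (s (φ e * q) * n))))
    (ev g (fun q => ev k (fun n : φ.ker => u (s (φ e * q) * n))) -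
      ev g (fun q => ev k (fun n : φ.ker => u (s q * n))))
  rw [sub_add_sub_cancel] at this
  linarith

/-- abelian groups -/
theorem Reiter.of_comm (hc : ∀ x y : H, x * y = y * x) : Reiter H := by
  classical
  intro E ε hε
  induction E using Finset.induction_on with
  | empty => exact ⟨Finsupp.single 1 1, prob_single 1, by simp⟩
  | insert h E _ ih =>
    obtain ⟨f, hf, hfE⟩ := ih
    obtain ⟨n, hn⟩ := exists_nat_gt (2 / ε)
    have hn0 : 0 < (n : ℝ) := lt_trans (by positivity) hn
    have hn1 : n ≠ 0 := by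
      rintro rfl
      simp at hn0
    have hne : (Finset.range n).Nonempty := by simpa using hn1
    have hk := prob_unif hne (fun i => h ^ i)
    refine ⟨bnd f (unif (Finset.range n) fun i => h ^ i) fun x y => x * y,
      prob_bnd hf hk _, fun e he u hu => ?_⟩
    rw [ev_bnd, ev_bnd]
    rcases Finset.mem_insert.1 he with rfl | he
    · have h1 : ∀ x : H, |ev (unif (Finset.range n) fun i => e ^ i) (fun y => u (e * (x * y))) -
          ev (unif (Finset.range n) fun i => e ^ i) (fun y => u (x * y))| ≤ ε := by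
        intro x
        rw [ev_unif, ev_unif, ← mul_sub, ← Finset.sum_sub_distrib]
        have h2 : ∀ i ∈ Finset.range n, u (e * (x * e ^ i)) - u (x * e ^ i) =
            u (x * e ^ (i + 1)) - u (x * e ^ i) := by
          intro i _
          congr 2
          rw [hc e, mul_assoc, ← pow_succ]
        rw [Finset.sum_congr rfl h2, Finset.sum_range_sub fun i => u (x * e ^ i), abs_mul]
        have h3 : |u (x * e ^ n) - u (x * e ^ 0)| ≤ 2 := by
          have a := hu (x * e ^ n)
          have b := hu (x * e ^ 0)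
          rw [abs_le] at a b ⊢
          constructor <;> linarith
        rw [Finset.card_range, abs_of_nonneg (by positivity : (0 : ℝ) ≤ (n : ℝ)⁻¹)]
        calc (n : ℝ)⁻¹ * |u (x * e ^ n) - u (x * e ^ 0)| ≤ (n : ℝ)⁻¹ * 2 := by gcongr
          _ ≤ ε := by
            rw [inv_mul_le_iff₀ hn0]
            rw [div_lt_iff₀ hε] at hn
            linarith
      rw [← ev_sub]
      exact abs_ev_le hf h1
    · have h1 : ∀ x y : H, e * (x * y) = (e * x) * y := fun x y => (mul_assoc e x y).symm
      simp only [h1]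
      exact hfE e he (fun x => ev (unif (Finset.range n) fun i => h ^ i) fun y => u (x * y))
        fun x => abs_ev_le hk fun y => hu _

/-- monotone form for subgroups: almost invariant probabilities of `G` for the elements of `S` -/
theorem Reiter.incl {S : Subgroup H} (hS : Reiter S) (E : Finset H) (hE : ∀ x ∈ E, x ∈ S)
    (ε : ℝ) (hε : 0 < ε) : ∃ f : H →₀ ℝ, Prob f ∧ (∀ x, f x ≠ 0 → x ∈ S) ∧
    ∀ h ∈ E, ∀ u : H → ℝ, (∀ x, |u x| ≤ 1) → |ev f (fun x => u (h * x)) - ev f u| ≤ ε := by
  classical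
  obtain ⟨f, hf, hfE⟩ := hS
    (E.attach.image fun x : {x // x ∈ E} => (⟨(x : H), hE x.1 x.2⟩ : S)) ε hε
  refine ⟨Finsupp.mapDomain (fun x : S => (x : H)) f, hf.mapDomain _, fun x hx => ?_,
    fun h hh u hu => ?_⟩
  · by_contra hxS
    apply hx
    refine Finsupp.mapDomain_of_notMem_range _ _ ?_
    rintro ⟨y, rfl⟩
    exact hxS y.2
  · rw [ev_mapDomain, ev_mapDomain]
    exact hfE ⟨h, hE h hh⟩ (Finset.mem_image.2 ⟨⟨h, hh⟩, Finset.mem_attach _ _, rfl⟩)
      (fun x : S => u x) fun x => hu _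

/-- directed unions of subgroups -/
theorem Reiter.directed {c : Set (Subgroup H)} (hne : c.Nonempty) (hd : DirectedOn (· ≤ ·) c)
    (hc : ∀ S ∈ c, Reiter S) : Reiter (sSup c : Subgroup H) := by
  classical
  intro E ε hε
  -- all elements of `E` lie in one member
  have hS : ∃ S ∈ c, ∀ x ∈ E, (x : H) ∈ S := by
    induction E using Finset.induction_on with
    | empty =>
      obtain ⟨S, hS⟩ := hne
      exact ⟨S, hS, by simp⟩
    | insert x E _ ih =>
      obtain ⟨S, hS, h⟩ := ih
      obtain ⟨T, hT, hx⟩ := (Subgroup.mem_sSup_of_directedOn hne hd).1 x.2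
      obtain ⟨V, hV, hSV, hTV⟩ := hd S hS T hT
      refine ⟨V, hV, fun y hy => ?_⟩
      rcases Finset.mem_insert.1 hy with rfl | hy
      · exact hTV hx
      · exact hSV (h y hy)
  obtain ⟨S, hSc, hSE⟩ := hS
  have hle : S ≤ sSup c := le_sSup hSc
  obtain ⟨f, hf, hfE⟩ := hc S hSc
    (E.attach.image fun x : {x // x ∈ E} => (⟨((x.1 : ↥(sSup c)) : H), hSE x.1 x.2⟩ : S)) ε hε
  refine ⟨Finsupp.mapDomain (Subgroup.inclusion hle) f, hf.mapDomain _, fun h hh u hu => ?_⟩
  rw [ev_mapDomain, ev_mapDomain]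
  have := hfE ⟨h, hSE h hh⟩ (Finset.mem_image.2 ⟨⟨h, hh⟩, Finset.mem_attach _ _, rfl⟩)
      (fun x : S => u (Subgroup.inclusion hle x)) fun x => hu _
  exact this

end closure

/-- `ℓ^1` form -/
theorem l1_of_dual {H : Type u} [Group H] {f : H →₀ ℝ} {h : H} {ε : ℝ}
    (hf : ∀ u : H → ℝ, (∀ x, |u x| ≤ 1) → |ev f (fun x => u (h * x)) - ev f u| ≤ ε) :
    (Summable fun x => |f (h⁻¹ * x) - f x|) ∧ ∑' x, |f (h⁻¹ * x) - f x| ≤ ε := by
  classical
  set T : Finset H := f.support ∪ f.support.image (fun x => h * x) with hT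
  have hz : ∀ x, x ∉ T → f (h⁻¹ * x) = 0 ∧ f x = 0 := by
    intro x hx
    rw [hT, Finset.mem_union, not_or] at hx
    refine ⟨?_, by simpa using hx.1⟩
    by_contra hne
    exact hx.2 (Finset.mem_image.2 ⟨h⁻¹ * x, by simpa using hne, by simp⟩)
  have hz' : ∀ x, x ∉ T → |f (h⁻¹ * x) - f x| = 0 := by
    intro x hx
    rw [(hz x hx).1, (hz x hx).2]
    simp
  refine ⟨summable_of_ne_finset_zero hz', ?_⟩
  rw [tsum_eq_sum hz']
  set u : H → ℝ := fun x => if 0 ≤ f (h⁻¹ * x) - f x then 1 else -1 with hu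
  have hu1 : ∀ x, |u x| ≤ 1 := by
    intro x
    rw [hu]
    dsimp only
    split_ifs <;> simp
  have h1 : ev f u = ∑ x ∈ T, f x * u x := by
    rw [ev_eq_sum]
    refine Finset.sum_subset (by rw [hT]; exact Finset.subset_union_left) fun x _ hx => ?_
    rw [Finsupp.notMem_support_iff.1 hx, zero_mul]
  have h2 : ev f (fun x => u (h * x)) = ∑ x ∈ T, f (h⁻¹ * x) * u x := by
    rw [ev_eq_sum]
    have h3 : ∑ x ∈ f.support, f x * u (h * x) =
        ∑ x ∈ f.support.image (fun x => h * x), f (h⁻¹ * x) * u x := by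
      rw [Finset.sum_image fun x _ y _ hxy => mul_left_cancel hxy]
      refine Finset.sum_congr rfl fun x _ => ?_
      rw [inv_mul_cancel_left]
    rw [h3]
    refine Finset.sum_subset (by rw [hT]; exact Finset.subset_union_right) fun x _ hx => ?_
    have : f (h⁻¹ * x) = 0 := by
      by_contra hne
      exact hx (Finset.mem_image.2 ⟨h⁻¹ * x, by simpa using hne, by simp⟩)
    rw [this, zero_mul]
  have h3 := hf u hu1
  rw [h1, h2, ← Finset.sum_sub_distrib] at h3
  refine le_trans (le_of_eq ?_) (le_trans (le_abs_self _) h3)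
  refine Finset.sum_congr rfl fun x _ => ?_
  rw [hu]
  dsimp only
  split_ifs with h0
  · rw [abs_of_nonneg h0]
    ring
  · rw [abs_of_neg (not_le.1 h0)]
    ring

/-- the invariant mean in the form of the frozen statement -/
theorem Reiter.mean {G : Type u} [Group G] (hG : Reiter G) :
    ∃ m : Set G → ℝ, (∀ A, 0 ≤ m A) ∧ m Set.univ = 1 ∧
      (∀ A B : Set G, Disjoint A B → m (A ∪ B) = m A + m B) ∧
      ∀ (g : G) (A : Set G), m ((fun x => g * x) '' A) = m A := by
  classical
  have hpos : ∀ n : ℕ, (0 : ℝ) < 1 / ((n : ℝ) + 1) := fun n => by positivity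
  choose F hF hFE using fun P : Finset G × ℕ => hG P.1 (1 / ((P.2 : ℝ) + 1)) (hpos P.2)
  let ind : Set G → G → ℝ := fun A x => if x ∈ A then 1 else 0
  have hind0 : ∀ A x, 0 ≤ ind A x := fun A x => by
    show 0 ≤ (if x ∈ A then (1 : ℝ) else 0)
    split_ifs <;> norm_num
  have hind1 : ∀ A x, ind A x ≤ 1 := fun A x => by
    show (if x ∈ A then (1 : ℝ) else 0) ≤ 1
    split_ifs <;> norm_num
  let U : Ultrafilter (Finset G × ℕ) := Ultrafilter.of atTop
  have hU : (U : Filter (Finset G × ℕ)) ≤ atTop := Ultrafilter.of_le atTop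
  have hex : ∀ A : Set G, ∃ a : ℝ, a ∈ Set.Icc (0 : ℝ) 1 ∧
      Tendsto (fun P => ev (F P) (ind A)) U (nhds a) := by
    intro A
    have hmem : ∀ P, ev (F P) (ind A) ∈ Set.Icc (0 : ℝ) 1 := by
      intro P
      refine ⟨(hF P).ev_nonneg (hind0 A), ?_⟩
      rw [← ev_const (hF P) 1]
      exact ev_mono (hF P) (hind1 A)
    have hle : ((U.map fun P => ev (F P) (ind A) : Ultrafilter ℝ) : Filter ℝ) ≤
        Filter.principal (Set.Icc (0 : ℝ) 1) := by
      rw [Filter.le_principal_iff]
      exact Filter.mem_map.2 (Filter.univ_mem' hmem)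
    obtain ⟨a, ha, hla⟩ := isCompact_Icc.ultrafilter_le_nhds _ hle
    exact ⟨a, ha, hla⟩
  choose m hm01 hm using hex
  refine ⟨m, fun A => (hm01 A).1, ?_, ?_, ?_⟩
  · have : Tendsto (fun P => ev (F P) (ind Set.univ)) U (nhds 1) := by
      have h1 : (fun P => ev (F P) (ind Set.univ)) = fun _ => (1 : ℝ) := by
        funext P
        have : ind Set.univ = fun _ => (1 : ℝ) := by
          funext x
          simp [ind]
        rw [this, (hF P).one]
      rw [h1]
      exact tendsto_const_nhds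
    exact tendsto_nhds_unique (hm _) this
  · intro A B hAB
    have h1 : (fun P => ev (F P) (ind (A ∪ B))) =
        fun P => ev (F P) (ind A) + ev (F P) (ind B) := by
      funext P
      rw [← ev_add]
      congr 1
      funext x
      by_cases hA : x ∈ A
      · have hB : x ∉ B := fun hB => (Set.disjoint_left.1 hAB) hA hB
        simp [ind, hA, hB]
      · simp [ind, hA]
    have h2 := hm (A ∪ B)
    rw [h1] at h2
    exact tendsto_nhds_unique h2 ((hm A).add (hm B))
  · intro g A
    have h1 : ∀ P : Finset G × ℕ, g ∈ P.1 →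
        |ev (F P) (ind ((fun x => g * x) '' A)) - ev (F P) (ind A)| ≤ 1 / ((P.2 : ℝ) + 1) := by
      intro P hg
      have h2 := hFE P g hg (ind ((fun x => g * x) '' A)) fun x => by
        rw [abs_of_nonneg (hind0 _ x)]
        exact hind1 _ x
      have h3 : (fun x => ind ((fun x => g * x) '' A) (g * x)) = ind A := by
        funext x
        show (if g * x ∈ (fun x => g * x) '' A then (1 : ℝ) else 0) = if x ∈ A then (1 : ℝ) else 0
        have : g * x ∈ (fun x => g * x) '' A ↔ x ∈ A := by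
          constructor
          · rintro ⟨y, hy, hxy⟩
            have := mul_left_cancel hxy
            rwa [← this]
          · intro hx
            exact ⟨x, hx, rfl⟩
        simp only [this]
      rw [h3, abs_sub_comm] at h2
      exact h2
    have hev : ∀ᶠ P : Finset G × ℕ in (U : Filter (Finset G × ℕ)), g ∈ P.1 := by
      apply hU
      filter_upwards [eventually_ge_atTop (({g} : Finset G), 0)] with P hP
      exact hP.1 (by simp)
    have hlim : Tendsto (fun P : Finset G × ℕ => 1 / ((P.2 : ℝ) + 1)) U (nhds 0) := by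
      refine Tendsto.comp (g := fun n : ℕ => 1 / ((n : ℝ) + 1)) (f := Prod.snd)
        (tendsto_one_div_add_atTop_nhds_zero_nat) ?_
      refine Tendsto.mono_left ?_ hU
      exact tendsto_snd.comp (by rw [← prod_atTop_atTop_eq]; exact tendsto_id)
    have h4 : Tendsto (fun P => ev (F P) (ind ((fun x => g * x) '' A)) - ev (F P) (ind A)) U
        (nhds 0) := by
      refine squeeze_zero_norm' ?_ hlim
      filter_upwards [hev] with P hP
      exact h1 P hP
    have h5 := (hm ((fun x => g * x) '' A)).sub (hm A)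
    have h6 := tendsto_nhds_unique h5 h4
    linarith

end Pool.Agent.PC
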